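import Pool.Agent.H27.Kozma

namespace Pool.Agent.Results.MP_8ede36_co.LocallyFinite

/-- There is a connected graph with all degrees finite that is roughly isometric to the Euclidean
plane with multiplicative constant `1`. -/
theorem result : ∃ (V : Type) (G : SimpleGraph V), G.Connected ∧
    (∀ v, (G.neighborSet v).Finite) ∧
    ∃ (f : V → EuclideanSpace ℝ (Fin 2)) (C : ℝ), 0 < C ∧
      (∀ x y, |‖f x - f y‖ - (G.dist x y : ℝ)| < C) ∧
      ∀ p : EuclideanSpace ℝ (Fin 2), ∃ x, ‖f x - p‖ < C :=
  Pool.Agent.H27.Kozma.main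

end Pool.Agent.Results.MP_8ede36_co.LocallyFinite
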